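import Mathlib

/-!
# Lattice homomorphisms from subgroup lattices to subspace lattices

Let `a, b, c` be elements of an abelian group `A` with `n a = n b = n c = 0` which are independent
modulo `n`: `r a + s b + t c = 0` implies that `n` divides `r`, `s`, `t` (`n = 0`: linearly
independent). Let `f` be a lattice homomorphism from the lattice of the subgroups of `A` to the lattice
of the subspaces of a vector space over a division ring.
-/

set_option autoImplicit false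

namespace Pool.Agent.Helper606_SL

open AddSubgroup

/-- Independence modulo `n` of three elements. -/
structure Indep3 {A : Type*} [AddCommGroup A] (n : ℤ) (a b c : A) : Prop where
  ha : n • a = 0
  hb : n • b = 0
  hc : n • c = 0
  ind : ∀ r s t : ℤ, r • a + s • b + t • c = 0 → n ∣ r ∧ n ∣ s ∧ n ∣ t

variable {A : Type*} [AddCommGroup A] {n : ℤ} {a b c : A}

theorem zm {x y : A} : x ∈ zmultiples y ↔ ∃ k : ℤ, k • y = x := mem_zmultiples_iff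

theorem smul_of_dvd {x : A} (hx : n • x = 0) {k : ℤ} (h : n ∣ k) : k • x = 0 := by
  obtain ⟨m, rfl⟩ := h
  rw [mul_comm, mul_smul, hx, smul_zero]

/-- `⟨a⟩ ≤ ⟨a - b⟩ + ⟨b⟩`. -/
theorem le1 (x y : A) : zmultiples x ≤ zmultiples (x - y) ⊔ zmultiples y := by
  rw [zmultiples_le]
  have h1 : x - y ∈ zmultiples (x - y) ⊔ zmultiples y :=
    le_sup_left (a := zmultiples (x - y)) (mem_zmultiples _)
  have h2 : y ∈ zmultiples (x - y) ⊔ zmultiples y :=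
    le_sup_right (b := zmultiples y) (mem_zmultiples _)
  simpa using add_mem h1 h2

/-- `(⟨a - k b⟩ + ⟨c⟩) ∩ (⟨a - c⟩ + ⟨b⟩) ≤ ⟨a - k b - c⟩`. -/
theorem le2 (h : Indep3 n a b c) (k : ℤ) :
    (zmultiples (a - k • b) ⊔ zmultiples c) ⊓ (zmultiples (a - c) ⊔ zmultiples b) ≤
      zmultiples (a - k • b - c) := by
  rintro y ⟨h1, h2⟩
  obtain ⟨_, h11, _, h12, rfl⟩ := mem_sup.1 h1
  obtain ⟨_, h21, _, h22, e⟩ := mem_sup.1 h2
  obtain ⟨s, rfl⟩ := zm.1 h11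
  obtain ⟨t, rfl⟩ := zm.1 h12
  obtain ⟨u, rfl⟩ := zm.1 h21
  obtain ⟨v, rfl⟩ := zm.1 h22
  obtain ⟨d1, d2, d3⟩ := h.ind (s - u) (-(k * s) - v) (t + u) (by
    have : s • (a - k • b) + t • c - (u • (a - c) + v • b) = 0 := by rw [e]; simp
    rw [← this]
    module)
  refine zm.2 ⟨s, ?_⟩
  have h0 : (s + t) • c = 0 := smul_of_dvd h.hc (by
    have := dvd_add d1 d3
    rwa [show s - u + (t + u) = s + t by ring] at this)
  have : s • (a - k • b) + t • c = s • (a - k • b - c) + (s + t) • c := by module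
  rw [this, h0, add_zero]

/-- `(⟨a - k b - c⟩ + ⟨b - c⟩) ∩ (⟨a⟩ + ⟨b⟩) ≤ ⟨a - (k + 1) b⟩`. -/
theorem le3 (h : Indep3 n a b c) (k : ℤ) :
    (zmultiples (a - k • b - c) ⊔ zmultiples (b - c)) ⊓ (zmultiples a ⊔ zmultiples b) ≤
      zmultiples (a - (k + 1) • b) := by
  rintro y ⟨h1, h2⟩
  obtain ⟨_, h11, _, h12, rfl⟩ := mem_sup.1 h1
  obtain ⟨_, h21, _, h22, e⟩ := mem_sup.1 h2
  obtain ⟨s, rfl⟩ := zm.1 h11
  obtain ⟨t, rfl⟩ := zm.1 h12
  obtain ⟨u, rfl⟩ := zm.1 h21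
  obtain ⟨v, rfl⟩ := zm.1 h22
  obtain ⟨d1, d2, d3⟩ := h.ind (s - u) (-(k * s) + t - v) (-s - t) (by
    have : s • (a - k • b - c) + t • (b - c) - (u • a + v • b) = 0 := by rw [e]; simp
    rw [← this]
    module)
  refine zm.2 ⟨s, ?_⟩
  have h0 : (s + t) • c = 0 := smul_of_dvd h.hc (by
    have := (dvd_neg (α := ℤ)).2 d3
    rwa [show -(-s - t) = s + t by ring] at this)
  have h0' : (s + t) • b = 0 := smul_of_dvd h.hb (by
    have := (dvd_neg (α := ℤ)).2 d3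
    rwa [show -(-s - t) = s + t by ring] at this)
  have : s • (a - k • b - c) + t • (b - c) =
      s • (a - (k + 1) • b) + (s + t) • b - (s + t) • c := by module
  rw [this, h0, h0', add_zero, sub_zero]

/-- `(⟨a - b⟩ + ⟨b - c⟩) ∩ (⟨a⟩ + ⟨c⟩) ≤ ⟨a - c⟩`. -/
theorem le4 (h : Indep3 n a b c) :
    (zmultiples (a - b) ⊔ zmultiples (b - c)) ⊓ (zmultiples a ⊔ zmultiples c) ≤
      zmultiples (a - c) := by
  rintro y ⟨h1, h2⟩
  obtain ⟨_, h11, _, h12, rfl⟩ := mem_sup.1 h1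
  obtain ⟨_, h21, _, h22, e⟩ := mem_sup.1 h2
  obtain ⟨s, rfl⟩ := zm.1 h11
  obtain ⟨t, rfl⟩ := zm.1 h12
  obtain ⟨u, rfl⟩ := zm.1 h21
  obtain ⟨v, rfl⟩ := zm.1 h22
  obtain ⟨d1, d2, d3⟩ := h.ind (s - u) (t - s) (-t - v) (by
    have : s • (a - b) + t • (b - c) - (u • a + v • c) = 0 := by rw [e]; simp
    rw [← this]
    module)
  refine zm.2 ⟨s, ?_⟩
  have h0 : (t - s) • (b - c) = 0 := by
    rw [smul_sub, smul_of_dvd h.hb d2, smul_of_dvd h.hc d2, sub_zero]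
  have : s • (a - b) + t • (b - c) = s • (a - c) + (t - s) • (b - c) := by module
  rw [this, h0, add_zero]

/-- `⟨a⟩ ∩ ⟨b⟩ = 0`. -/
theorem le5 (h : Indep3 n a b c) : zmultiples a ⊓ zmultiples b ≤ ⊥ := by
  rintro y ⟨h1, h2⟩
  obtain ⟨s, rfl⟩ := zm.1 h1
  obtain ⟨t, e⟩ := zm.1 h2
  obtain ⟨d1, -, -⟩ := h.ind s (-t) 0 (by
    rw [neg_smul, e]; simp)
  exact (mem_bot).2 (smul_of_dvd h.ha d1)

/-- `⟨a⟩ ∩ ⟨a - b⟩ = 0`. -/
theorem le6 (h : Indep3 n a b c) : zmultiples a ⊓ zmultiples (a - b) ≤ ⊥ := by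
  rintro y ⟨h1, h2⟩
  obtain ⟨s, rfl⟩ := zm.1 h1
  obtain ⟨t, e⟩ := zm.1 h2
  obtain ⟨d1, d2, -⟩ := h.ind (s - t) t 0 (by
    have : s • a - t • (a - b) = 0 := by rw [e]; simp
    rw [← this]; module)
  refine (mem_bot).2 (smul_of_dvd h.ha ?_)
  have := dvd_add d1 d2
  rwa [show s - t + t = s by ring] at this

/-- `⟨a⟩ ∩ ⟨a - q b⟩ ≤ ⟨m a⟩` if `n = q m`, `q ≠ 0`. -/
theorem le7 (h : Indep3 n a b c) {q m : ℤ} (hq : q ≠ 0) (hn : n = q * m) :
    zmultiples a ⊓ zmultiples (a - q • b) ≤ zmultiples (m • a) := by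
  rintro y ⟨h1, h2⟩
  obtain ⟨s, rfl⟩ := zm.1 h1
  obtain ⟨t, e⟩ := zm.1 h2
  obtain ⟨d1, d2, -⟩ := h.ind (s - t) (q * t) 0 (by
    have : s • a - t • (a - q • b) = 0 := by rw [e]; simp
    rw [← this]; module)
  have d3 : m ∣ t := by
    rw [hn] at d2
    exact (mul_dvd_mul_iff_left hq).1 d2
  have d4 : m ∣ s := by
    have : m ∣ s - t := (Dvd.intro_left q hn.symm).trans d1
    have := dvd_add this d3
    rwa [show s - t + t = s by ring] at this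
  obtain ⟨r, rfl⟩ := d4
  exact zm.2 ⟨r, by rw [smul_smul, mul_comm]⟩

/-- `(⟨a - b⟩ + ⟨a + (q-1) b⟩) ∩ ⟨a⟩ ≤ ⟨q a⟩` for independent elements of infinite order. -/
theorem le8 (h : Indep3 0 a b c) (q : ℤ) :
    (zmultiples (a - b) ⊔ zmultiples (a - (1 - q) • b)) ⊓ zmultiples a ≤
      zmultiples (q • a) := by
  rintro y ⟨h1, h2⟩
  obtain ⟨_, h11, _, h12, rfl⟩ := mem_sup.1 h1
  obtain ⟨u, e⟩ := zm.1 h2
  obtain ⟨s, rfl⟩ := zm.1 h11
  obtain ⟨t, rfl⟩ := zm.1 h12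
  obtain ⟨d1, d2, -⟩ := h.ind (s + t - u) (-s - (1 - q) * t) 0 (by
    have : s • (a - b) + t • (a - (1 - q) • b) - u • a = 0 := by rw [e]; simp
    rw [← this]; module)
  rw [zero_dvd_iff] at d1 d2
  have : s + t = q * t := by linear_combination -d2
  refine zm.2 ⟨t, ?_⟩
  rw [← e, smul_smul]
  congr 1
  linarith

end Pool.Agent.Helper606_SL
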