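import Mathlib
import Pool.Agent.Helper606_SL.Frame

/-!
# The characteristic of a frame is preserved by lattice homomorphisms

For a lattice homomorphism `f` from the lattice of the subgroups of `A` to the lattice of the subspaces
of a vector space over a division ring `D` and independent elements `a, b, c` of `A` modulo `n`, we
transport multiples of the vectors of `f ⟨b⟩`.
-/

set_option autoImplicit false

namespace Pool.Agent.Helper606_SL

open AddSubgroup hiding map_sup map_inf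

variable {A : Type*} [AddCommGroup A] {n : ℤ} {a b c : A}
variable {D : Type*} [DivisionRing D] {V : Type*} [AddCommGroup V] [Module D V]

theorem mem_of_le (f : LatticeHom (AddSubgroup A) (Submodule D V)) {P Q R S T : AddSubgroup A}
    (h : (P ⊔ Q) ⊓ (R ⊔ S) ≤ T) {x y z w v : V} (hx : x ∈ f P) (hy : y ∈ f Q) (hz : z ∈ f R)
    (hw : w ∈ f S) (h1 : x + y = v) (h2 : z + w = v) : v ∈ f T := by
  have h3 : v ∈ f (P ⊔ Q) := by
    rw [map_sup, ← h1]
    exact add_mem (Submodule.mem_sup_left hx) (Submodule.mem_sup_right hy)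
  have h4 : v ∈ f (R ⊔ S) := by
    rw [map_sup, ← h2]
    exact add_mem (Submodule.mem_sup_left hz) (Submodule.mem_sup_right hw)
  have h5 : v ∈ f ((P ⊔ Q) ⊓ (R ⊔ S)) := by
    rw [map_inf]
    exact ⟨h3, h4⟩
  exact OrderHomClass.mono f h h5

theorem exists_of_le (f : LatticeHom (AddSubgroup A) (Submodule D V)) {P Q R : AddSubgroup A}
    (h : P ≤ Q ⊔ R) {x : V} (hx : x ∈ f P) : ∃ y ∈ f R, x - y ∈ f Q := by
  have h1 : x ∈ f (Q ⊔ R) := OrderHomClass.mono f h hx
  rw [map_sup] at h1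
  obtain ⟨u, hu, v, hv, e⟩ := Submodule.mem_sup.1 h1
  exact ⟨v, hv, by rw [← e]; simpa using hu⟩

/-- Every vector `x₁` in `f ⟨a⟩` has a partner `x₂` in `f ⟨b⟩` with `x₁ - k x₂ ∈ f ⟨a - k b⟩` for all
natural numbers `k`. -/
theorem chain (f : LatticeHom (AddSubgroup A) (Submodule D V)) (h : Indep3 n a b c) {x : V}
    (hx : x ∈ f (zmultiples a)) :
    ∃ y ∈ f (zmultiples b), ∀ k : ℕ, x - k • y ∈ f (zmultiples (a - (k : ℤ) • b)) := by
  obtain ⟨y, hy, hxy⟩ := exists_of_le f (le1 a b) hx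
  obtain ⟨z, hz, hyz⟩ := exists_of_le f (le1 b c) hy
  have hxz : x - z ∈ f (zmultiples (a - c)) :=
    mem_of_le f (le4 h) hxy hyz hx (neg_mem hz) (by abel) (by abel)
  refine ⟨y, hy, fun k => ?_⟩
  induction k with
  | zero => simpa using hx
  | succ k ih =>
    have hky : k • y ∈ f (zmultiples b) := nsmul_mem hy k
    have h1 : x - k • y - z ∈ f (zmultiples (a - (k : ℤ) • b - c)) :=
      mem_of_le f (le2 h k) ih (neg_mem hz) hxz (neg_mem hky) (by abel) (by abel)
    have h2 : x - (k + 1) • y ∈ f (zmultiples (a - ((k : ℤ) + 1) • b)) :=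
      mem_of_le f (le3 h k) h1 (neg_mem hyz) hx (neg_mem (nsmul_mem hy (k + 1)))
        (by rw [succ_nsmul]; abel) (by abel)
    simpa using h2

theorem inv_mem {W : Submodule D V} {q : ℕ} (hq : (q : D) ≠ 0) {x : V} (h : q • x ∈ W) : x ∈ W := by
  rw [← Nat.cast_smul_eq_nsmul D] at h
  exact (W.smul_mem_iff hq).1 h

/-- If `n` is invertible in `D`, then `f ⟨a⟩ = f 0`. -/
theorem collapse (f : LatticeHom (AddSubgroup A) (Submodule D V)) {N : ℕ} (h : Indep3 (N : ℤ) a b c)
    (hN : (N : D) ≠ 0) : f (zmultiples a) ≤ f ⊥ := by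
  intro x hx
  obtain ⟨y, hy, H⟩ := chain f h hx
  have h1 := H N
  rw [h.hb, sub_zero] at h1
  have h2 : N • y ∈ f (zmultiples a) := by
    have := sub_mem hx h1
    simpa using this
  have h3 : N • y ∈ f ⊥ := by
    have : N • y ∈ f (zmultiples a ⊓ zmultiples b) := by
      rw [map_inf]; exact ⟨h2, nsmul_mem hy N⟩
    exact OrderHomClass.mono f (le5 h) this
  have h4 : y ∈ f ⊥ := inv_mem hN h3
  have h5 : x ∈ f (zmultiples (a - b)) := by
    have h6 := H 1
    rw [one_nsmul, Nat.cast_one, one_zsmul] at h6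
    have h7 : y ∈ f (zmultiples (a - b)) := OrderHomClass.mono f bot_le h4
    simpa using add_mem h6 h7
  have h8 : x ∈ f (zmultiples a ⊓ zmultiples (a - b)) := by
    rw [map_inf]; exact ⟨hx, h5⟩
  exact OrderHomClass.mono f (le6 h) h8

/-- If `n = p m` and `p = 0` in `D`, then `f ⟨a⟩ ≤ f ⟨m a⟩`. -/
theorem shrink (f : LatticeHom (AddSubgroup A) (Submodule D V)) {p m : ℕ} (hp : p ≠ 0)
    (h : Indep3 ((p * m : ℕ) : ℤ) a b c) (hpD : (p : D) = 0) :
    f (zmultiples a) ≤ f (zmultiples ((m : ℤ) • a)) := by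
  intro x hx
  obtain ⟨y, hy, H⟩ := chain f h hx
  have h1 := H p
  rw [← Nat.cast_smul_eq_nsmul D, hpD, zero_smul, sub_zero] at h1
  have h8 : x ∈ f (zmultiples a ⊓ zmultiples (a - (p : ℤ) • b)) := by
    rw [map_inf]; exact ⟨hx, h1⟩
  exact OrderHomClass.mono f (le7 h (q := p) (m := m) (by exact_mod_cast hp) (by push_cast; ring)) h8

theorem le9 (h : Indep3 0 a b c) (q : ℤ) :
    (zmultiples (a - b) ⊔ zmultiples (a - (q + 1) • b)) ⊓ (zmultiples a ⊔ ⊥) ≤
      zmultiples (q • a) := by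
  rintro y ⟨h1, h2⟩
  rw [sup_bot_eq] at h2
  obtain ⟨_, h11, _, h12, rfl⟩ := mem_sup.1 h1
  obtain ⟨u, e⟩ := zm.1 h2
  obtain ⟨s, rfl⟩ := zm.1 h11
  obtain ⟨t, rfl⟩ := zm.1 h12
  obtain ⟨d1, d2, -⟩ := h.ind (s + t - u) (-s - (q + 1) * t) 0 (by
    have : s • (a - b) + t • (a - (q + 1) • b) - u • a = 0 := by rw [e]; simp
    rw [← this]; module)
  rw [zero_dvd_iff] at d1 d2
  refine zm.2 ⟨-t, ?_⟩
  rw [← e, smul_smul]
  congr 1
  linear_combination d1 + d2

/-- For elements of infinite order and `q` invertible in `D`: `f ⟨a⟩ ≤ f ⟨q a⟩`. -/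
theorem divide (f : LatticeHom (AddSubgroup A) (Submodule D V)) (h : Indep3 0 a b c) {q : ℕ}
    (hq : (q : D) ≠ 0) : f (zmultiples a) ≤ f (zmultiples ((q : ℤ) • a)) := by
  intro x hx
  obtain ⟨y, hy, H⟩ := chain f h hx
  have h1 := H 1
  rw [one_nsmul, Nat.cast_one, one_zsmul] at h1
  have h2 := H (q + 1)
  have h3 : (q + 1) • (x - y) ∈ f (zmultiples (a - b)) := nsmul_mem h1 _
  push_cast at h2
  refine inv_mem hq (mem_of_le f (le9 h q) h3 (neg_mem h2) (nsmul_mem hx q) (zero_mem _) ?_ (by simp))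
  rw [nsmul_sub, succ_nsmul, succ_nsmul]
  abel

/-- For three elements of order `p²`: `f ⟨a⟩ = f ⟨p a⟩`. -/
theorem key_sq (f : LatticeHom (AddSubgroup A) (Submodule D V)) {p : ℕ} (hp : p.Prime)
    (h : Indep3 ((p * p : ℕ) : ℤ) a b c) : f (zmultiples a) ≤ f (zmultiples ((p : ℤ) • a)) := by
  by_cases hD : (p : D) = 0
  · exact shrink f hp.ne_zero h hD
  · refine (collapse f h ?_).trans (OrderHomClass.mono f bot_le)
    push_cast
    exact mul_ne_zero hD hD

/-- For three elements of infinite order: `f ⟨a⟩ = f ⟨2 a⟩`. -/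
theorem key_zero (f : LatticeHom (AddSubgroup A) (Submodule D V))
    (h : Indep3 0 a b c) : f (zmultiples a) ≤ f (zmultiples ((2 : ℤ) • a)) := by
  by_cases hD : ((2 : ℕ) : D) = 0
  · have h1 : f (zmultiples a) ≤ f (zmultiples (((0 : ℕ) : ℤ) • a)) :=
      shrink f (p := 2) (m := 0) two_ne_zero (by simpa using h) hD
    refine h1.trans (OrderHomClass.mono f ?_)
    simp
  · exact_mod_cast divide f h hD

end Pool.Agent.Helper606_SL
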