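import Mathlib
import Pool.Agent.Helper606_SL.Key

/-!
# Abelian groups containing three independent elements of the same non-prime order
-/

set_option autoImplicit false

namespace Pool.Agent.Helper606_SL

open AddSubgroup hiding map_sup map_inf

section

variable {A : Type*} [AddCommGroup A] {a b c : A}

theorem dvd_one_of_le {M : Type*} [Lattice M] (f : LatticeHom (AddSubgroup A) M)
    (hf : Function.Injective f) {n m : ℤ} (h : Indep3 n a b c) (hm : m ∣ n)
    (hle : f (zmultiples a) ≤ f (zmultiples (m • a))) : m ∣ 1 := by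
  have h1 : f (zmultiples a ⊓ zmultiples (m • a)) = f (zmultiples a) := by
    rw [map_inf]; exact inf_eq_left.2 hle
  have h2 : a ∈ zmultiples a ⊓ zmultiples (m • a) := by
    rw [hf h1]; exact mem_zmultiples a
  obtain ⟨r, hr⟩ := zm.1 h2.2
  obtain ⟨d, -, -⟩ := h.ind (r * m - 1) 0 0 (by
    rw [zero_smul, zero_smul, add_zero, add_zero, sub_smul, mul_smul, hr, one_smul, sub_self])
  have := dvd_sub (Dvd.intro_left r rfl : m ∣ r * m) (hm.trans d)
  simpa using this

theorem indep_of_inj {n : ℕ} (ι : (Fin 3 → ZMod n) →+ A) (hι : Function.Injective ι) :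
    Indep3 (n : ℤ) (ι (Pi.single 0 1)) (ι (Pi.single 1 1)) (ι (Pi.single 2 1)) := by
  have hz : ∀ i : Fin 3, (n : ℤ) • ι (Pi.single i 1) = 0 := by
    intro i
    rw [← map_zsmul, ← Pi.single_smul]
    simp
  refine ⟨hz 0, hz 1, hz 2, fun r s t h => ?_⟩
  rw [← map_zsmul, ← map_zsmul, ← map_zsmul, ← map_add, ← map_add, map_eq_zero_iff ι hι] at h
  have h0 := congrFun h 0
  have h1 := congrFun h 1
  have h2 := congrFun h 2
  simp only [Pi.add_apply, Pi.smul_apply, Pi.single_apply, Pi.zero_apply] at h0 h1 h2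
  simp only [Fin.isValue, ↓reduceIte, zsmul_eq_mul, mul_one, zero_ne_one, mul_zero, add_zero,
    Fin.reduceEq, one_ne_zero, zero_add] at h0 h1 h2
  exact ⟨(ZMod.intCast_zmod_eq_zero_iff_dvd _ _).1 h0, (ZMod.intCast_zmod_eq_zero_iff_dvd _ _).1 h1,
    (ZMod.intCast_zmod_eq_zero_iff_dvd _ _).1 h2⟩

theorem Indep3.smul_of {n : ℤ} {r m : ℤ} (hr : r ≠ 0) (hn : n = r * m) (h : Indep3 n a b c) :
    Indep3 m (r • a) (r • b) (r • c) := by
  subst hn
  have e : ∀ x : A, m • r • x = (r * m) • x := fun x => by rw [smul_smul, mul_comm]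
  refine ⟨by rw [e, h.ha], by rw [e, h.hb], by rw [e, h.hc], fun x y z hxyz => ?_⟩
  obtain ⟨d1, d2, d3⟩ := h.ind (r * x) (r * y) (r * z) (by
    rw [← hxyz]; module)
  exact ⟨(mul_dvd_mul_iff_left hr).1 d1, (mul_dvd_mul_iff_left hr).1 d2,
    (mul_dvd_mul_iff_left hr).1 d3⟩

/-- No embedding into a subspace lattice. -/
theorem not_injective {n : ℕ} (hn1 : n ≠ 1) (hnp : ¬ n.Prime) (h : Indep3 (n : ℤ) a b c)
    {D : Type*} [DivisionRing D] {V : Type*} [AddCommGroup V] [Module D V]
    (f : LatticeHom (AddSubgroup A) (Submodule D V)) : ¬ Function.Injective f := by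
  intro hf
  rcases eq_or_ne n 0 with rfl | hn0
  · have := dvd_one_of_le f hf h (m := 2) (by simp) (key_zero f (by simpa using h))
    omega
  by_cases hD : (n : D) = 0
  · obtain ⟨p, hp⟩ := CharP.exists D
    have hpn : p ∣ n := (CharP.cast_eq_zero_iff D p n).1 hD
    obtain ⟨m, rfl⟩ := hpn
    have hp0 : p ≠ 0 := left_ne_zero_of_mul hn0
    have hpp : p.Prime := (CharP.char_is_prime_or_zero D p).resolve_right hp0
    have h1 := dvd_one_of_le f hf h (m := (m : ℤ)) (by push_cast; exact Dvd.intro_left _ rfl)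
      (shrink f hp0 h (CharP.cast_eq_zero D p))
    have h2 : m = 1 := by
      have : m ∣ 1 := by exact_mod_cast h1
      exact Nat.dvd_one.1 this
    subst h2
    exact hnp (by rwa [mul_one])
  · have h1 := dvd_one_of_le f hf h (m := (n : ℤ)) dvd_rfl
      ((collapse f h hD).trans (OrderHomClass.mono f bot_le))
    have : n ∣ 1 := by exact_mod_cast h1
    exact hn1 (Nat.dvd_one.1 this)

/-- No embedding into a product of subspace lattices over various division rings. -/
theorem not_injective_pi {n : ℕ} (hn : ¬ Squarefree n) (h : Indep3 (n : ℤ) a b c)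
    {I : Type*} {D : I → Type*} [∀ i, DivisionRing (D i)] {V : I → Type*}
    [∀ i, AddCommGroup (V i)] [∀ i, Module (D i) (V i)]
    (f : LatticeHom (AddSubgroup A) (∀ i, Submodule (D i) (V i))) : ¬ Function.Injective f := by
  intro hf
  let g : ∀ i, LatticeHom (AddSubgroup A) (Submodule (D i) (V i)) := fun i =>
    { toFun := fun H => f H i
      map_sup' := fun H K => by rw [map_sup]; rfl
      map_inf' := fun H K => by rw [map_inf]; rfl }
  rcases eq_or_ne n 0 with rfl | hn0
  · have := dvd_one_of_le f hf h (m := 2) (by simp)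
      (fun i => key_zero (g i) (by simpa using h))
    omega
  · obtain ⟨p, hp, q, hq⟩ : ∃ p : ℕ, p.Prime ∧ p * p ∣ n := by
      by_contra hcon
      push Not at hcon
      exact hn (Nat.squarefree_iff_prime_squarefree.2 hcon)
    have hq0 : (q : ℤ) ≠ 0 := by
      rintro h0
      apply hn0
      rw [hq, Int.natCast_eq_zero.1 h0, mul_zero]
    have h' : Indep3 ((p * p : ℕ) : ℤ) ((q : ℤ) • a) ((q : ℤ) • b) ((q : ℤ) • c) :=
      Indep3.smul_of hq0 (by rw [hq]; push_cast; ring) h
    have h1 := dvd_one_of_le f hf h' (m := (p : ℤ)) (by push_cast; exact Dvd.intro _ rfl)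
      (fun i => key_sq (g i) hp h')
    have : p ∣ 1 := by exact_mod_cast h1
    exact hp.one_lt.ne' (Nat.dvd_one.1 this)

end

end Pool.Agent.Helper606_SL
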