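import Mathlib
import Pool.Agent.Helper606_SL.Main

/-!
# The positive cases
-/

set_option autoImplicit false

namespace Pool.Agent.Helper606_SL

open AddSubgroup hiding map_sup map_inf

/-- For a prime `p`, the lattice of the subgroups of `(ℤ/p)^m` is a subspace lattice. -/
theorem exists_of_prime {n : ℕ} (hn : n.Prime) (m : ℕ) :
    ∃ (D : Type) (_ : DivisionRing D) (V : Type) (_ : AddCommGroup V) (_ : Module D V)
      (f : LatticeHom (AddSubgroup (Fin m → ZMod n)) (Submodule D V)), Function.Injective f := by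
  have : Fact n.Prime := ⟨hn⟩
  let e : AddSubgroup (Fin m → ZMod n) ≃o Submodule (ZMod n) (Fin m → ZMod n) :=
    AddSubgroup.toZModSubmodule n
  exact ⟨ZMod n, inferInstance, Fin m → ZMod n, inferInstance, inferInstance,
    ⟨⟨e, fun a b => e.map_sup a b⟩, fun a b => e.map_inf a b⟩, e.injective⟩

/-- For `n = 1`, the lattice of the subgroups of `(ℤ/n)^m` has one element. -/
theorem exists_of_one (m : ℕ) :
    ∃ (D : Type) (_ : DivisionRing D) (V : Type) (_ : AddCommGroup V) (_ : Module D V)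
      (f : LatticeHom (AddSubgroup (Fin m → ZMod 1)) (Submodule D V)), Function.Injective f := by
  have : Subsingleton (AddSubgroup (Fin m → ZMod 1)) := by
    refine ⟨fun H K => ?_⟩
    ext x
    rw [Subsingleton.elim x 0]
    exact ⟨fun _ => zero_mem _, fun _ => zero_mem _⟩
  exact ⟨ℚ, inferInstance, ℚ, inferInstance, inferInstance,
    ⟨⟨fun _ => ⊥, fun a b => by simp⟩, fun a b => by simp⟩, fun a b _ => Subsingleton.elim a b⟩

section

variable {n : ℕ} {m : ℕ}

/-- Reduction of the coordinates modulo a divisor `p` of `n`. -/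
def red (m : ℕ) {n p : ℕ} (h : p ∣ n) : (Fin m → ZMod n) →+ (Fin m → ZMod p) where
  toFun x := fun i => ZMod.castHom h (ZMod p) (x i)
  map_zero' := by ext i; simp
  map_add' x y := by funext i; exact map_add (ZMod.castHom h (ZMod p)) (x i) (y i)

theorem smul_eq_of_red {p q : ℕ} (hn : n = p * q) (hn0 : n ≠ 0) (x : Fin m → ZMod n)
    (hx : red m (Dvd.intro q hn.symm) x = 0) {e : ℤ} (he : (q : ℤ) ∣ e) : e • x = 0 := by
  have : NeZero n := ⟨hn0⟩
  ext i
  have h1 := congrFun hx i
  change ZMod.castHom (Dvd.intro q hn.symm) (ZMod p) (x i) = 0 at h1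
  obtain ⟨k, hk⟩ := ZMod.intCast_surjective (x i)
  rw [← hk, map_intCast, ZMod.intCast_zmod_eq_zero_iff_dvd] at h1
  rw [Pi.smul_apply, Pi.zero_apply, ← hk, zsmul_eq_mul, ← Int.cast_mul,
    ZMod.intCast_zmod_eq_zero_iff_dvd]
  rw [hn, mul_comm e k]
  push_cast
  exact mul_dvd_mul h1 he

theorem map_red_inf (hn : Squarefree n) {p : ℕ} (h : p ∣ n)
    (H K : AddSubgroup (Fin m → ZMod n)) :
    (H ⊓ K).map (red m h) = H.map (red m h) ⊓ K.map (red m h) := by
  apply le_antisymm (AddSubgroup.map_inf_le H K _)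
  rintro y ⟨⟨x, hx, rfl⟩, ⟨z, hz, e⟩⟩
  obtain ⟨q, rfl⟩ := h
  have hcop : IsCoprime (p : ℤ) (q : ℤ) := by
    rw [Nat.isCoprime_iff_coprime]
    exact Nat.coprime_of_squarefree_mul hn
  obtain ⟨u, v, huv⟩ := hcop
  have h1 : (v * q) • (x - z) = 0 := by
    refine smul_eq_of_red (p := p) (q := q) rfl hn.ne_zero _ ?_ (Dvd.intro_left v rfl)
    rw [map_sub, sub_eq_zero]
    exact e.symm
  rw [smul_sub, sub_eq_zero] at h1
  refine ⟨(v * q) • x, ⟨zsmul_mem hx _, ?_⟩, ?_⟩
  · rw [h1]; exact zsmul_mem hz _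
  · rw [map_zsmul]
    have h2 : (v * q : ℤ) = 1 - u * p := by linear_combination huv
    have h3 : (p : ℤ) • (red m (Dvd.intro q rfl : p ∣ p * q) x) = 0 := by
      ext i; simp
    rw [h2, sub_smul, one_smul, mul_smul, h3, smul_zero, sub_zero]

theorem eq_of_map_red (hn : Squarefree n) (H K : AddSubgroup (Fin m → ZMod n))
    (h : ∀ p : ℕ, p.Prime → ∀ hpn : p ∣ n, H.map (red m hpn) ≤ K.map (red m hpn)) : H ≤ K := by
  intro x hx
  set g := addOrderOf (QuotientAddGroup.mk x : (Fin m → ZMod n) ⧸ K) with hg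
  have key : ∀ t : ℕ, t • x ∈ K → g ∣ t := by
    intro t ht
    rw [hg, addOrderOf_dvd_iff_nsmul_eq_zero]
    rw [← QuotientAddGroup.mk_nsmul]
    exact (QuotientAddGroup.eq_zero_iff _).2 ht
  have hgn : g ∣ n := key n (by
    have : n • x = 0 := by ext i; simp
    rw [this]; exact zero_mem K)
  have hg1 : g = 1 := by
    by_contra hne
    obtain ⟨p, hp, hpg⟩ := Nat.exists_prime_and_dvd hne
    have hpn := hpg.trans hgn
    obtain ⟨z, hz, e⟩ := h p hp hpn ⟨x, hx, rfl⟩
    obtain ⟨q, hq⟩ := id hpn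
    have h1 : (q : ℤ) • (x - z) = 0 := by
      refine smul_eq_of_red (p := p) (q := q) hq hn.ne_zero _ ?_ dvd_rfl
      rw [map_sub, sub_eq_zero]
      exact e.symm
    have h2 : q • x ∈ K := by
      rw [smul_sub, sub_eq_zero, natCast_zsmul, natCast_zsmul] at h1
      rw [h1]; exact nsmul_mem hz q
    have h3 : p ∣ q := hpg.trans (key q h2)
    have h4 : p * p ∣ n := by rw [hq]; exact mul_dvd_mul_left p h3
    exact hp.one_lt.ne' (Nat.isUnit_iff.1 (hn p h4))
  have h5 : (1 : ℕ) • (QuotientAddGroup.mk x : (Fin m → ZMod n) ⧸ K) = 0 := by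
    rw [← hg1, hg]; exact addOrderOf_nsmul_eq_zero _
  rw [one_nsmul] at h5
  exact (QuotientAddGroup.eq_zero_iff _).1 h5

end

/-- For a squarefree `n`, the lattice of the subgroups of `(ℤ/n)^m` embeds into a product of subspace
lattices. -/
theorem exists_of_squarefree {n : ℕ} (hn : Squarefree n) (m : ℕ) :
    ∃ (I : Type) (D : I → Type) (_ : ∀ i, DivisionRing (D i)) (V : I → Type)
      (_ : ∀ i, AddCommGroup (V i)) (_ : ∀ i, Module (D i) (V i))
      (f : LatticeHom (AddSubgroup (Fin m → ZMod n)) (∀ i, Submodule (D i) (V i))),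
      Function.Injective f := by
  have : ∀ p : {p : ℕ // p.Prime ∧ p ∣ n}, Fact p.1.Prime := fun p => ⟨p.2.1⟩
  let f : LatticeHom (AddSubgroup (Fin m → ZMod n))
      (∀ p : {p : ℕ // p.Prime ∧ p ∣ n}, Submodule (ZMod p.1) (Fin m → ZMod p.1)) :=
    { toFun := fun H p => AddSubgroup.toZModSubmodule p.1 (H.map (red m p.2.2))
      map_sup' := fun H K => by
        funext p
        rw [AddSubgroup.map_sup, OrderIso.map_sup]
        rfl
      map_inf' := fun H K => by
        funext p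
        rw [map_red_inf hn p.2.2, OrderIso.map_inf]
        rfl }
  refine ⟨{p : ℕ // p.Prime ∧ p ∣ n}, fun p => ZMod p.1, inferInstance, fun p => Fin m → ZMod p.1,
    inferInstance, inferInstance, f, fun H K e => ?_⟩
  have e' : ∀ (p : ℕ) (hp : p.Prime) (hpn : p ∣ n), H.map (red m hpn) = K.map (red m hpn) := by
    intro p hp hpn
    have := congrFun e ⟨p, hp, hpn⟩
    exact (AddSubgroup.toZModSubmodule p).injective this
  exact le_antisymm (eq_of_map_red hn H K fun p hp hpn => (e' p hp hpn).le)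
    (eq_of_map_red hn K H fun p hp hpn => (e' p hp hpn).ge)

end Pool.Agent.Helper606_SL
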